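import Pool.Agent.H948.SF.Surv
import Pool.Agent.H948.SF.Main
import Pool.Agent.H948.SF.PRix
import Pool.Agent.H948.SF.PBlock
import Pool.Agent.H948.SF.PMeas
import Pool.Agent.H948.SF.PPois
import Pool.Agent.H948.SF.PAcc
import Pool.Agent.H948.SF.PCoup
import Pool.Agent.H948.SF.PTree
import Pool.Agent.H948.SF.PDens
import Pool.Agent.H948.SF.PFree
import Pool.Agent.H948.SF.PGwn
import Pool.Agent.H948.SF.PHand
import Pool.Agent.H948.SF.PHit
import Pool.Agent.H948.SF.PChain
import Pool.Agent.H948.SF.PPig
import Pool.Agent.H948.SF.PLine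
import Pool.Agent.H948.SF.PGw
import Pool.Agent.H948.SF.PGev
import Pool.Agent.H948.SF.PGeo
import Pool.Agent.H948.SF.PDom
import Pool.Agent.H948.SF.PSuper
import Pool.Agent.H948.SF.PRev
import Pool.Agent.H948.SF.PExt

/-!
# Spin-flip domination for the contact process on homogeneous trees (MP_69dcc1_pr)

For every homogeneous tree (all degrees `d + 1`, `d ≥ 2`) and every infection parameter above the
critical value there are a set `D` of positive density, a rate `α > 0` and a coupling of the upper
stationary contact process with the stationary independent spin-flip process of rate `α` in which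
the contact process dominates the spin-flip process on `D` at all times `t ≥ 0`.
-/

namespace Pool.Agent.Results.MP_69dcc1_pr.SpinFlipDomination

open MeasureTheory ProbabilityTheory Set
open scoped ENNReal
open Pool.Agent.H948.SF

theorem result (V : Type) (G : SimpleGraph V) (d : ℕ) (hd : 2 ≤ d) (hG : G.IsTree)
    (hdeg : ∀ x, (G.neighborSet x).encard = (d : ℕ∞) + 1) (lam : ℝ)
    (hlam : lamC G < ENNReal.ofReal lam) :
    ∃ (D : Set V) (α : ℝ), PosDensity G D ∧ 0 < α ∧
      ∃ (Ω : Type) (_ : MeasurableSpace Ω) (P : Measure Ω) (_ : IsProbabilityMeasure P)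
        (N : Lab V → Ω → Set ℝ) (M : V ⊕ V → Ω → Set ℝ),
        IsPoissonFamily P (contactRate lam) N ∧ IsPoissonFamily P (spinRate α) M ∧
        ∀ ω, ∀ x ∈ D, ∀ t : ℝ, 0 ≤ t → Spin M x t ω → Upper G N x t ω := by
  have rix := Pool.Agent.H230.SF.s_rix
  have block := Pool.Agent.H331.SF.s_block
  have meas := Pool.Agent.H407.SF.s_meas
  have pois := Pool.Agent.H967.SF.s_pois
  have acc := Pool.Agent.H922.SF.s_acc
  have coup := Pool.Agent.H127.SF.s_coup rix block pois acc
  have tree := Pool.Agent.H23.SF.s_tree
  have dens := Pool.Agent.H400.SF.s_dens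
  have free := Pool.Agent.H975.SF.s_free
  have gwn := Pool.Agent.H695.SF.s_gwn
  have hand := Pool.Agent.H746.SF.s_hand meas
  have hit := Pool.Agent.H284.SFHIT.s_hit rix block meas hand
  have chain := Pool.Agent.H282.SF.s_chain rix block meas
  have super := Pool.Agent.H935.SF.s_super rix block meas hand free
  have pig := Pool.Agent.H187.SF.s_pig meas super
  have line := Pool.Agent.H196.SF.Line.s_line rix block meas hand
  have gw := Pool.Agent.H59.SF.s_gw rix block meas gwn
  have gev := Pool.Agent.H948.SF.s_gev block meas hand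
  have geo := Pool.Agent.H23.SF.s_geo
  have dom := Pool.Agent.H81.SF.s_dom
  have rev := Pool.Agent.H154.SF.s_rev rix meas
  have ext := Pool.Agent.H106.SF.s_ext rix block meas hand
  have surv := s_surv rev ext hit chain tree
  exact main rix pois coup tree surv pig line gw gev geo dom dens V G d hd hG hdeg lam hlam

end Pool.Agent.Results.MP_69dcc1_pr.SpinFlipDomination
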